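import Mathlib
import Pool.Agent.R504.TempFam
import Pool.Agent.R504.TempTree

set_option autoImplicit false

/-!
# Temporal trees with temporal chromatic number 7 or 8

There is a temporal graph with ten snapshots, all of them trees, that has no temporal
`6`-colouring; it has a temporal `8`-colouring. Hence its temporal chromatic number is `7` or `8`.
-/

namespace Pool.Agent.Results.MP_e33ffa_co.SevenOrEight

open Pool.Agent.R504

/-- the `i`-th snapshot, `1 ≤ i ≤ T`, of a temporal graph `G` with `T` snapshots; for all other `i`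
the edgeless graph -/
def snap {V : Type} {T : ℕ} (G : Fin T → SimpleGraph V) (i : ℕ) : SimpleGraph V :=
  if h : 1 ≤ i ∧ i ≤ T then G ⟨i - 1, by omega⟩ else ⊥

/-- the maps `c, c'` are compatible on the graph `H` -/
def Compatible {V K : Type} (H : SimpleGraph V) (c c' : V → K) : Prop :=
  ∀ u v, H.Adj u v → c u ≠ c v ∧ c' u ≠ c' v ∧ c u ≠ c' v ∧ c' u ≠ c v

/-- `c 1, …, c T` is a temporal colouring of the temporal graph `G` with `T` snapshots (the values
of `c` outside `1, …, T` are irrelevant) -/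
def IsTemporalColouring {V K : Type} {T : ℕ} (G : Fin T → SimpleGraph V) (c : ℕ → V → K) :
    Prop :=
  (∀ j, 1 ≤ j → j ≤ T → ∀ u v, (snap G (j - 1) ⊔ snap G j ⊔ snap G (j + 1)).Adj u v →
    c j u ≠ c j v) ∧
  ∀ j, 1 ≤ j → j + 1 ≤ T → Compatible (snap G j ⊔ snap G (j + 1)) (c j) (c (j + 1))

/-- the temporal chromatic number: the least `k` for which a temporal `k`-colouring exists -/
noncomputable def temporalChromaticNumber {V : Type} {T : ℕ} (G : Fin T → SimpleGraph V) : ℕ :=
  sInf {k : ℕ | ∃ c : ℕ → V → Fin k, IsTemporalColouring G c}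

/-! ### The construction -/

/-- parents in the three Hamiltonian paths `0 5 1 4 2 3`, `1 0 2 5 3 4`, `2 1 3 0 4 5` of `K₆`,
rooted at `0` -/
def basePar : Fin 3 → Fin 6 → Fin 6 :=
  ![![0, 5, 4, 2, 1, 0], ![0, 0, 0, 5, 3, 2], ![0, 3, 1, 0, 0, 4]]

/-- distances to the root in the three paths -/
def baseRk : Fin 3 → Fin 6 → ℕ :=
  ![![0, 2, 4, 5, 3, 1], ![0, 1, 1, 3, 4, 2], ![0, 2, 3, 1, 1, 2]]

/-- the vertex sets: at every level one new vertex for every function from the set of the ten
indices to the vertices of the previous level -/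
def W : ℕ → Type
  | 0 => Fin 6
  | k + 1 => W k ⊕ (Fin 10 → W k)

noncomputable instance instFintypeW : ∀ k, Fintype (W k)
  | 0 => inferInstanceAs (Fintype (Fin 6))
  | k + 1 => by
    classical
    haveI := instFintypeW k
    exact inferInstanceAs (Fintype (W k ⊕ (Fin 10 → W k)))

/-- the inclusion of level `k` into level `k + 1` -/
def inL {k : ℕ} (v : W k) : W (k + 1) := Sum.inl v

/-- the new vertices of level `k + 1` -/
def leaf {k : ℕ} (P : Fin 10 → W k) : W (k + 1) := Sum.inr P

lemma inL_injective {k : ℕ} : Function.Injective (inL (k := k)) := fun _ _ h => Sum.inl_injective h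

lemma leaf_ne {k : ℕ} (P : Fin 10 → W k) (v : W k) : leaf P ≠ inL v := Sum.inr_ne_inl

/-- the index of the path used in the snapshot `i` -/
def idx (i : Fin 10) : Fin 3 := ⟨i.val % 3, Nat.mod_lt _ (by norm_num)⟩

/-- the six vertices of level `0` inside level `k` -/
def emb : ∀ k, Fin 6 → W k
  | 0 => fun i => i
  | k + 1 => fun i => inL (emb k i)

/-- the parent of a vertex in the snapshot `i` -/
def par : ∀ k, Fin 10 → W k → W k
  | 0 => fun i v => basePar (idx i) v
  | k + 1 => fun i v => inL (Sum.elim (par k i) (fun P => P i) v)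

/-- the rank of a vertex in the snapshot `i` -/
def rk : ∀ k, Fin 10 → W k → ℕ
  | 0 => fun i v => baseRk (idx i) v
  | k + 1 => fun i v => Sum.elim (rk k i) (fun P => rk k i (P i) + 1) v

lemma rk_par : ∀ k i (v : W k), v ≠ emb k 0 → rk k i v = rk k i (par k i v) + 1
  | 0 => by
    intro i v hv
    have key : ∀ (j : Fin 3) (v : Fin 6), v ≠ 0 → baseRk j v = baseRk j (basePar j v) + 1 := by
      decide
    exact key (idx i) v hv
  | k + 1 => by
    intro i v hv
    rcases v with v | P
    · exact rk_par k i v (fun h => hv (congrArg inL h))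
    · rfl

/-- the ten snapshots at level `k` -/
def G (k : ℕ) (i : Fin 10) : SimpleGraph (W k) := TempTree.pg (emb k 0) (par k i)

lemma G_isTree (k : ℕ) (i : Fin 10) : (G k i).IsTree :=
  TempTree.pg_isTree (rk := rk k i) (rk_par k i)

lemma G_inl {k : ℕ} {i : Fin 10} {u v : W k} (h : (G k i).Adj u v) :
    (G (k + 1) i).Adj (inL u) (inL v) := by
  obtain ⟨h1, h2⟩ := h
  refine ⟨fun h => h1 (inL_injective h), ?_⟩
  rcases h2 with ⟨h2, h3⟩ | ⟨h2, h3⟩
  · exact Or.inl ⟨fun h => h2 (inL_injective h), congrArg inL h3⟩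
  · exact Or.inr ⟨fun h => h2 (inL_injective h), congrArg inL h3⟩

lemma G_leaf {k : ℕ} (i : Fin 10) (P : Fin 10 → W k) :
    (G (k + 1) i).Adj (leaf P) (inL (P i)) :=
  ⟨leaf_ne _ _, Or.inl ⟨leaf_ne _ _, rfl⟩⟩

lemma base_adj : ∀ t : Fin 8, ∀ i j : Fin 6, i ≠ j →
    (i ≠ 0 ∧ basePar (idx ⟨t.val, by omega⟩) i = j ∨ j ≠ 0 ∧ basePar (idx ⟨t.val, by omega⟩) j = i) ∨
    (i ≠ 0 ∧ basePar (idx ⟨t.val + 1, by omega⟩) i = j ∨
      j ≠ 0 ∧ basePar (idx ⟨t.val + 1, by omega⟩) j = i) ∨
    (i ≠ 0 ∧ basePar (idx ⟨t.val + 2, by omega⟩) i = j ∨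
      j ≠ 0 ∧ basePar (idx ⟨t.val + 2, by omega⟩) j = i) := by
  decide +kernel

lemma emb_adj : ∀ k (t : Fin 8) (i j : Fin 6), i ≠ j →
    (G k ⟨t.val, by omega⟩).Adj (emb k i) (emb k j) ∨
    (G k ⟨t.val + 1, by omega⟩).Adj (emb k i) (emb k j) ∨
    (G k ⟨t.val + 2, by omega⟩).Adj (emb k i) (emb k j)
  | 0 => by
    intro t i j hij
    rcases base_adj t i j hij with h | h | h
    · exact Or.inl ⟨hij, h⟩
    · exact Or.inr (Or.inl ⟨hij, h⟩)
    · exact Or.inr (Or.inr ⟨hij, h⟩)
  | k + 1 => by
    intro t i j hij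
    rcases emb_adj k t i j hij with h | h | h
    · exact Or.inl (G_inl h)
    · exact Or.inr (Or.inl (G_inl h))
    · exact Or.inr (Or.inr (G_inl h))

lemma snap_eq {V : Type} {T : ℕ} (G : Fin T → SimpleGraph V) {i : ℕ} (h1 : 1 ≤ i) (h2 : i ≤ T) :
    snap G i = G ⟨i - 1, by omega⟩ := dif_pos ⟨h1, h2⟩

/-! ### No temporal 6-colouring -/

/-- restricting a temporal colouring of level `k + 1` to level `k` -/
lemma restrict {K : Type} {k : ℕ} {c : ℕ → W (k + 1) → K}
    (hc : IsTemporalColouring (G (k + 1)) c) :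
    IsTemporalColouring (G k) (fun t v => c t (inL v)) := by
  have hs : ∀ i u v, (snap (G k) i).Adj u v →
      (snap (G (k + 1)) i).Adj (inL u) (inL v) := by
    intro i u v h
    unfold snap at h ⊢
    split_ifs at h ⊢ with hi
    · exact G_inl h
    · exact absurd h (by simp)
  refine ⟨fun j h1 h2 u v h => hc.1 j h1 h2 _ _ ?_, fun j h1 h2 u v h => hc.2 j h1 h2 _ _ ?_⟩
  · rw [SimpleGraph.sup_adj, SimpleGraph.sup_adj] at h
    rcases h with (h | h) | h
    · exact Or.inl (Or.inl (hs _ _ _ h))
    · exact Or.inl (Or.inr (hs _ _ _ h))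
    · exact Or.inr (hs _ _ _ h)
  · rw [SimpleGraph.sup_adj] at h
    rcases h with h | h
    · exact Or.inl (hs _ _ _ h)
    · exact Or.inr (hs _ _ _ h)

open Classical in
/-- the pairs of colours that occur at consecutive times -/
noncomputable def pairs {k : ℕ} (c : ℕ → W k → Fin 6) : Finset (Fin 7 × Fin 6 × Fin 6) :=
  Finset.univ.filter fun q => ∃ v, c (q.1.val + 2) v = q.2.1 ∧ c (q.1.val + 3) v = q.2.2

lemma pairs_ne {k : ℕ} {c : ℕ → W (k + 1) → Fin 6} (hc : IsTemporalColouring (G (k + 1)) c) :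
    pairs (fun t (v : W k) => c t (inL v)) ≠ pairs c := by
  intro heq
  let S : Set (ℕ → Fin 6) := Set.range fun v : W k => fun t => c t (inL v)
  apply TempFam.no_fam (S := S)
  constructor
  · refine ⟨fun i => fun t => c t (inL (emb k i)), fun i => ⟨emb k i, rfl⟩, ?_⟩
    intro t ht ht' i j hij
    by_contra hne
    have h := emb_adj (k + 1) ⟨t - 2, by omega⟩ i j hne
    refine hc.1 t (by omega) (by omega) (emb (k + 1) i) (emb (k + 1) j) ?_ hij
    rw [SimpleGraph.sup_adj, SimpleGraph.sup_adj, snap_eq _ (by omega : 1 ≤ t - 1) (by omega),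
      snap_eq _ (by omega : 1 ≤ t) (by omega), snap_eq _ (by omega : 1 ≤ t + 1) (by omega)]
    rcases h with h | h | h
    · refine Or.inl (Or.inl ?_)
      convert h using 2
      simp only [Fin.mk.injEq]
      omega
    · refine Or.inl (Or.inr ?_)
      convert h using 2
      simp only [Fin.mk.injEq]
      omega
    · refine Or.inr ?_
      convert h using 2
      simp only [Fin.mk.injEq]
      omega
  · intro s hs
    choose P hP using hs
    let w : W (k + 1) := leaf fun i : Fin 10 => P (i.val + 1)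
    have hw : ∀ i (h1 : 1 ≤ i) (h2 : i ≤ 10), (snap (G (k + 1)) i).Adj w (inL (P i)) := by
      intro i h1 h2
      rw [snap_eq _ h1 h2]
      have h := G_leaf (k := k) ⟨i - 1, by omega⟩ fun i : Fin 10 => P (i.val + 1)
      have e : P ((⟨i - 1, by omega⟩ : Fin 10).val + 1) = P i := by
        congr 1
        simp only
        omega
      rw [e] at h
      exact h
    have hP' : ∀ i t, c t (inL (P i)) = s i t := fun i t => congrFun (hP i) t
    refine ⟨fun t => c t w, ?_, ?_⟩
    · intro t h1 h2
      have h3 : ((⟨t - 2, by omega⟩ : Fin 7), c t w, c (t + 1) w) ∈ pairs c := by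
        unfold pairs
        rw [Finset.mem_filter]
        refine ⟨Finset.mem_univ _, w, ?_, ?_⟩
        · simp only
          congr 1
          omega
        · simp only
          congr 1
          omega
      rw [← heq] at h3
      unfold pairs at h3
      rw [Finset.mem_filter] at h3
      obtain ⟨-, v, hv1, hv2⟩ := h3
      refine ⟨fun t => c t (inL v), ⟨v, rfl⟩, ?_, ?_⟩
      · have e : t - 2 + 2 = t := by omega
        simp only [e] at hv1
        exact hv1
      · have e : t - 2 + 3 = t + 1 := by omega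
        simp only [e] at hv2
        exact hv2
    · intro u h1 h2
      have c1 := hc.2 u h1 (by omega)
      have c2 := hc.2 (u + 1) (by omega) (by omega)
      have c3 := hc.1 (u + 1) (by omega) (by omega)
      have a1 : (snap (G (k + 1)) u ⊔ snap (G (k + 1)) (u + 1)).Adj w (inL (P u)) :=
        Or.inl (hw u h1 (by omega))
      have a2 : (snap (G (k + 1)) u ⊔ snap (G (k + 1)) (u + 1)).Adj w (inL (P (u + 1))) :=
        Or.inr (hw (u + 1) (by omega) (by omega))
      have a3 : (snap (G (k + 1)) (u + 1) ⊔ snap (G (k + 1)) (u + 1 + 1)).Adj w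
          (inL (P (u + 1))) := Or.inl (hw (u + 1) (by omega) (by omega))
      have a4 : (snap (G (k + 1)) (u + 1) ⊔ snap (G (k + 1)) (u + 1 + 1)).Adj w
          (inL (P (u + 2))) := Or.inr (hw (u + 2) (by omega) (by omega))
      have b1 := c1 _ _ a1
      have b2 := c1 _ _ a2
      have b3 := c2 _ _ a3
      have b4 := c2 _ _ a4
      rw [hP', hP'] at b1 b2 b3 b4
      exact ⟨b1.2.2.2, b1.2.1, b2.2.2.2, b2.2.1, b3.2.2.1, b4.1, b4.2.2.1⟩

lemma card_pairs_ge : ∀ (k : ℕ) (c : ℕ → W k → Fin 6), IsTemporalColouring (G k) c →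
    k ≤ (pairs c).card
  | 0 => fun _ _ => Nat.zero_le _
  | k + 1 => by
    intro c hc
    have h1 := card_pairs_ge k _ (restrict hc)
    have h2 := pairs_ne hc
    have h3 : pairs (fun t (v : W k) => c t (inL v)) ⊆ pairs c := by
      intro q hq
      unfold pairs at hq ⊢
      rw [Finset.mem_filter] at hq ⊢
      obtain ⟨-, v, hv⟩ := hq
      exact ⟨Finset.mem_univ _, inL v, hv⟩
    have h4 := Finset.card_lt_card (Finset.ssubset_iff_subset_ne.mpr ⟨h3, h2⟩)
    omega

lemma no_six (c : ℕ → W 253 → Fin 6) : ¬ IsTemporalColouring (G 253) c := by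
  intro hc
  have h1 := card_pairs_ge 253 c hc
  have h2 : (pairs c).card ≤ Fintype.card (Fin 7 × Fin 6 × Fin 6) := Finset.card_le_univ _
  have h3 : Fintype.card (Fin 7 × Fin 6 × Fin 6) = 252 := by
    simp [Fintype.card_prod]
  omega

/-! ### A temporal 8-colouring -/

/-- the parity of the rank in the snapshot `i` -/
def A (k i : ℕ) (v : W k) : Bool :=
  if h : 1 ≤ i ∧ i ≤ 10 then decide (rk k ⟨i - 1, by omega⟩ v % 2 = 1) else false

lemma A_ne {k i : ℕ} {u v : W k} (h : (snap (G k) i).Adj u v) : A k i u ≠ A k i v := by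
  unfold snap at h
  split_ifs at h with hi
  · unfold A
    rw [dif_pos hi, dif_pos hi]
    have key : ∀ x y : W k, x ≠ emb k 0 → par k ⟨i - 1, by omega⟩ x = y →
        decide (rk k ⟨i - 1, by omega⟩ x % 2 = 1) ≠ decide (rk k ⟨i - 1, by omega⟩ y % 2 = 1) := by
      rintro x y hx rfl
      have := rk_par k ⟨i - 1, by omega⟩ x hx
      rw [this]
      intro hd
      rw [decide_eq_decide] at hd
      omega
    rcases h.2 with ⟨h1, h2⟩ | ⟨h1, h2⟩
    · exact key u v h1 h2
    · exact (key v u h1 h2).symm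
  · exact absurd h (by simp)

/-- the index in `{t - 1, t, t + 1}` with residue `r` modulo `3` -/
def pick (t : ℕ) (r : Fin 3) : ℕ :=
  if (t - 1) % 3 = r.val then t - 1 else if t % 3 = r.val then t else t + 1

lemma pick_eq {t i : ℕ} (ht : 1 ≤ t) (h1 : t - 1 ≤ i) (h2 : i ≤ t + 1) :
    pick t ⟨i % 3, Nat.mod_lt _ (by norm_num)⟩ = i := by
  unfold pick
  simp only
  split_ifs <;> omega

/-- the temporal colouring with the eight colours `Fin 3 → Bool` -/
def col (k t : ℕ) (v : W k) : Fin 3 → Bool := fun r => A k (pick t r) v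

lemma col_isTemporalColouring (k : ℕ) : IsTemporalColouring (G k) (col k) := by
  have key : ∀ {t t' i : ℕ} {u v : W k}, 1 ≤ t → 1 ≤ t' → t - 1 ≤ i → i ≤ t + 1 → t' - 1 ≤ i →
      i ≤ t' + 1 → (snap (G k) i).Adj u v → col k t u ≠ col k t' v := by
    intro t t' i u v h1 h1' h2 h3 h2' h3' hadj heq
    have h4 := congrFun heq ⟨i % 3, Nat.mod_lt _ (by norm_num)⟩
    unfold col at h4
    rw [pick_eq h1 h2 h3, pick_eq h1' h2' h3'] at h4
    exact A_ne hadj h4
  constructor
  · intro j h1 h2 u v h
    rw [SimpleGraph.sup_adj, SimpleGraph.sup_adj] at h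
    rcases h with (h | h) | h
    · exact key h1 h1 (by omega) (by omega) (by omega) (by omega) h
    · exact key h1 h1 (by omega) (by omega) (by omega) (by omega) h
    · exact key h1 h1 (by omega) (by omega) (by omega) (by omega) h
  · intro j h1 h2 u v h
    rw [SimpleGraph.sup_adj] at h
    rcases h with h | h
    · exact ⟨key h1 h1 (by omega) (by omega) (by omega) (by omega) h,
        key (by omega) (by omega) (by omega) (by omega) (by omega) (by omega) h,
        key h1 (by omega) (by omega) (by omega) (by omega) (by omega) h,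
        key (by omega) h1 (by omega) (by omega) (by omega) (by omega) h⟩
    · exact ⟨key h1 h1 (by omega) (by omega) (by omega) (by omega) h,
        key (by omega) (by omega) (by omega) (by omega) (by omega) (by omega) h,
        key h1 (by omega) (by omega) (by omega) (by omega) (by omega) h,
        key (by omega) h1 (by omega) (by omega) (by omega) (by omega) h⟩

lemma map_colouring {V K K' : Type} {T : ℕ} {G : Fin T → SimpleGraph V} {c : ℕ → V → K}
    (hc : IsTemporalColouring G c) (f : K → K') (hf : Function.Injective f) :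
    IsTemporalColouring G (fun t v => f (c t v)) := by
  refine ⟨fun j h1 h2 u v h => hf.ne (hc.1 j h1 h2 u v h), fun j h1 h2 u v h => ?_⟩
  obtain ⟨a1, a2, a3, a4⟩ := hc.2 j h1 h2 u v h
  exact ⟨hf.ne a1, hf.ne a2, hf.ne a3, hf.ne a4⟩

/-- **Answer to Q1: yes.** There is a temporal graph in which every snapshot is a tree and whose
temporal chromatic number is `7` or `8`. -/
theorem result : ∃ (V : Type) (_ : Fintype V) (T : ℕ) (G : Fin T → SimpleGraph V),
    (∀ i, (G i).IsTree) ∧ (temporalChromaticNumber G = 7 ∨ temporalChromaticNumber G = 8) := by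
  refine ⟨W 253, instFintypeW 253, 10, G 253, G_isTree 253, ?_⟩
  have h8 : 8 ∈ {k : ℕ | ∃ c : ℕ → W 253 → Fin k, IsTemporalColouring (G 253) c} := by
    have e : (Fin 3 → Bool) ≃ Fin 8 := Fintype.equivFinOfCardEq (by simp)
    exact ⟨_, map_colouring (col_isTemporalColouring 253) e e.injective⟩
  have hle : temporalChromaticNumber (G 253) ≤ 8 := Nat.sInf_le h8
  have hge : 7 ≤ temporalChromaticNumber (G 253) := by
    by_contra hcon
    push Not at hcon
    obtain ⟨c, hc⟩ := Nat.sInf_mem ⟨8, h8⟩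
    have h6 : sInf {k : ℕ | ∃ c : ℕ → W 253 → Fin k, IsTemporalColouring (G 253) c} ≤ 6 := by
      change temporalChromaticNumber (G 253) ≤ 6
      omega
    exact no_six _ (map_colouring hc (Fin.castLE h6) (Fin.castLE_injective h6))
  omega

end Pool.Agent.Results.MP_e33ffa_co.SevenOrEight
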